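import Mathlib
import Pool.Agent.H119R2.Kp.NT
import Pool.Agent.N70.EP.Dens

/-!
Numbers for the project H17D (alternating fibre powers in odd characteristic for almost all
`n ≡ 6 p` modulo `12 p`): primes close to `n`, and densities.
-/

set_option autoImplicit false

namespace Pool.Agent.H17D

/-- The degrees: `n = c (2 j + 1)`. -/
def DegD (c n : ℕ) : Prop := n % (2 * c) = c

theorem degD_iff {c n : ℕ} (hc : 0 < c) : DegD c n ↔ ∃ j, n = c * (2 * j + 1) := by
  unfold DegD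
  constructor
  · intro h
    refine ⟨n / (2 * c), ?_⟩
    have h1 := Nat.div_add_mod n (2 * c)
    rw [h] at h1
    calc n = 2 * c * (n / (2 * c)) + c := h1.symm
      _ = c * (2 * (n / (2 * c)) + 1) := by ring
  · rintro ⟨j, rfl⟩
    have h1 : c * (2 * j + 1) = c + (2 * c) * j := by ring
    rw [h1, Nat.add_mul_mod_self_left, Nat.mod_eq_of_lt (by omega)]

/-- Primes close to `n`. -/
theorem exists_q' (c C : ℕ) (hc : 0 < c) : ∃ n₀ : ℕ, ∀ n ≥ n₀, ∃ q r : ℕ, q.Prime ∧ n = q + r ∧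
    5 ≤ r ∧ r < q ∧ c * (r + C) ≤ n := by
  obtain ⟨N, hN⟩ := Pool.Agent.H119R2.Kp.prime_between (1 / (4 * c)) (by positivity)
  refine ⟨2 * N + 5 + 40 + 4 * c * (5 + C), fun n hn => ?_⟩
  have hc1 : (1 : ℝ) ≤ c := by exact_mod_cast hc
  have hδ : (0 : ℝ) < 1 / (4 * c) := by positivity
  have hδ1 : (1 : ℝ) / (4 * c) ≤ 1 / 4 := by
    apply one_div_le_one_div_of_le (by norm_num)
    linarith
  set δ : ℝ := 1 / (4 * c) with hδd
  have hnR : (2 * N + 5 + 40 + 4 * c * (5 + C) : ℝ) ≤ n := by exact_mod_cast hn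
  have hN0 : (0 : ℝ) ≤ N := Nat.cast_nonneg _
  have hC0 : (0 : ℝ) ≤ C := Nat.cast_nonneg _
  have hcC : (0 : ℝ) ≤ 4 * c * (5 + C) := by positivity
  have h1 : (N : ℝ) ≤ (n - 5) / (1 + δ) := by
    rw [le_div_iff₀ (by linarith)]
    nlinarith
  obtain ⟨q, hq, hq1, hq2⟩ := hN _ h1
  have hδne : (1 + δ) ≠ 0 := by positivity
  have h2 : (q : ℝ) < n - 5 := by
    calc (q : ℝ) < (1 + δ) * ((n - 5) / (1 + δ)) := hq2
      _ = n - 5 := by field_simp
  have h3 : (n - 5 : ℝ) < (1 + δ) * q := by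
    rw [div_lt_iff₀ (by linarith)] at hq1
    linarith
  have h4 : q + 5 < n := by
    have : ((q + 5 : ℕ) : ℝ) < n := by push_cast; linarith
    exact_mod_cast this
  obtain ⟨r, hr⟩ : ∃ r, n = q + r := ⟨n - q, by omega⟩
  have hrR : (n : ℝ) = q + r := by rw [hr]; push_cast; ring
  have hq0 : (0 : ℝ) ≤ q := Nat.cast_nonneg _
  have h5 : (r : ℝ) < δ * n + 5 := by nlinarith
  have h6 : (r : ℝ) < q := by
    have h7 : δ * n ≤ 1 / 4 * n := mul_le_mul_of_nonneg_right hδ1 (Nat.cast_nonneg _)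
    linarith
  refine ⟨q, r, hq, hr, by omega, by exact_mod_cast h6, ?_⟩
  have h7 : (c : ℝ) * (r + C) ≤ n := by
    have h8 : (c : ℝ) * δ = 1 / 4 := by
      rw [hδd]
      field_simp
    have h9 : (c : ℝ) * (r + C) ≤ c * (δ * n + 5 + C) := by
      apply mul_le_mul_of_nonneg_left _ (by linarith)
      linarith
    have h10 : (c : ℝ) * (δ * n + 5 + C) = 1 / 4 * n + c * (5 + C) := by
      rw [← h8]; ring
    have h11 : (0 : ℝ) ≤ c * (5 + C) := by positivity
    linarith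
  exact_mod_cast h7

open scoped Classical in
/-- The numbers `n ≡ c` modulo `2 c` without the property `A` have density zero: the number of those
less than `x` is `o(x)`. -/
def AlmostAllIn (c : ℕ) (A : ℕ → Prop) : Prop :=
  ∀ ε : ℝ, 0 < ε → ∃ N : ℕ, ∀ x ≥ N,
    (((Finset.range x).filter fun n => DegD c n ∧ ¬ A n).card : ℝ) ≤ ε * x

theorem almostAllIn_mono {c : ℕ} {A B : ℕ → Prop} (hA : AlmostAllIn c A) (h : ∀ n, A n → B n) :
    AlmostAllIn c B := by
  classical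
  intro ε hε
  obtain ⟨N, hN⟩ := hA ε hε
  refine ⟨N, fun x hx => le_trans ?_ (hN x hx)⟩
  have : ((Finset.range x).filter fun n => DegD c n ∧ ¬ B n) ⊆
      ((Finset.range x).filter fun n => DegD c n ∧ ¬ A n) := by
    intro n hn
    rw [Finset.mem_filter] at hn ⊢
    exact ⟨hn.1, hn.2.1, fun h' => hn.2.2 (h n h')⟩
  convert (Nat.cast_le (α := ℝ)).2 (Finset.card_le_card this) using 2

/-- Density one. -/
theorem dens (c R : ℕ) (hc : 0 < c) (A : ℕ → Prop)
    (h : ∀ r : ℕ, Odd r → R ≤ r → ∃ n₀ : ℕ, ∀ n ≥ n₀, DegD (r * c) n → A n) :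
    AlmostAllIn c A := by
  classical
  intro ε hε
  obtain ⟨F, hF, hF2⟩ := Pool.Agent.N70.EP.exists_primes R (ε / 3) (by positivity)
  obtain ⟨C, hC⟩ := Pool.Agent.N70.EP.count_coprime F (fun p hp => (hF p hp).1)
  have h' : ∀ r : ℕ, ∃ n₀ : ℕ, Odd r → R ≤ r → ∀ n ≥ n₀, DegD (r * c) n → A n := by
    intro r
    by_cases h1 : Odd r ∧ R ≤ r
    · obtain ⟨n₀, hn₀⟩ := h r h1.1 h1.2
      exact ⟨n₀, fun _ _ => hn₀⟩
    · exact ⟨0, fun a b => absurd ⟨a, b⟩ h1⟩
  choose κ hκ using h'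
  obtain ⟨K, hK⟩ : ∃ K, ∀ p ∈ F, κ p ≤ K := ⟨F.sup κ, fun p hp => Finset.le_sup hp⟩
  have key : ∀ x : ℕ, (((Finset.range x).filter fun n => DegD c n ∧ ¬ A n).card : ℝ) ≤
      K + ((∏ p ∈ F, (1 - (p : ℝ)⁻¹)) * (x : ℝ) + C) := by
    intro x
    have hsub : ((Finset.range x).filter fun n => DegD c n ∧ ¬ A n) ⊆
        Finset.range K ∪ ((Finset.range x).filter fun u => ∀ p ∈ F, ¬ p ∣ u).image
          (fun u => c * u) := by
      intro n hn
      rw [Finset.mem_filter, Finset.mem_range] at hn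
      obtain ⟨hnx, hd, hA⟩ := hn
      rw [Finset.mem_union, Finset.mem_range]
      by_cases hnK : n < K
      · exact Or.inl hnK
      right
      obtain ⟨j, hj⟩ := (degD_iff hc).1 hd
      rw [Finset.mem_image]
      refine ⟨2 * j + 1, ?_, hj.symm⟩
      rw [Finset.mem_filter, Finset.mem_range]
      refine ⟨?_, fun p hp hpd => ?_⟩
      · calc 2 * j + 1 ≤ c * (2 * j + 1) := Nat.le_mul_of_pos_left _ hc
          _ = n := hj.symm
          _ < x := hnx
      · obtain ⟨h1, h2, h3⟩ := hF p hp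
        have hpo : Odd p := h1.odd_of_ne_two (by omega)
        obtain ⟨w, hw⟩ := hpd
        have hwo : Odd w := by
          have : Odd (p * w) := by rw [← hw]; exact ⟨j, rfl⟩
          exact (Nat.odd_mul.1 this).2
        obtain ⟨j', hj'⟩ := hwo
        apply hA
        refine hκ p hpo h2 n ((hK p hp).trans (by omega)) ?_
        rw [degD_iff (Nat.mul_pos h1.pos hc)]
        refine ⟨j', ?_⟩
        rw [hj, hw, hj']
        ring
    have h1 := (Finset.card_le_card hsub).trans (Finset.card_union_le _ _)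
    have h2 : (((Finset.range x).filter fun u => ∀ p ∈ F, ¬ p ∣ u).image
          (fun u => c * u)).card ≤ ((Finset.range x).filter fun u => ∀ p ∈ F, ¬ p ∣ u).card :=
      Finset.card_image_le
    rw [Finset.card_range] at h1
    have h3 : ((((Finset.range x).filter fun n => DegD c n ∧ ¬ A n).card : ℕ) : ℝ) ≤
        ((K + ((Finset.range x).filter fun u => ∀ p ∈ F, ¬ p ∣ u).card : ℕ) : ℝ) := by
      exact_mod_cast h1.trans (by omega)
    refine h3.trans ?_
    push_cast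
    have h4 := hC x
    have h5 : (((Finset.range x).filter fun u => ∀ p ∈ F, ¬ p ∣ u).card : ℝ) ≤
        (∏ p ∈ F, (1 - (p : ℝ)⁻¹)) * (x : ℝ) + C := by
      convert h4
    linarith
  obtain ⟨N, hN⟩ := exists_nat_ge ((K + |C|) / (ε / 3))
  refine ⟨N, fun x hx => ?_⟩
  have h1 := key x
  have hxN : (N : ℝ) ≤ x := by exact_mod_cast hx
  have h2 : (K : ℝ) + |C| ≤ ε / 3 * x := by
    have h3 : (K + |C|) / (ε / 3) ≤ x := hN.trans hxN
    rw [div_le_iff₀ (by positivity)] at h3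
    linarith
  have h3 : (∏ p ∈ F, (1 - (p : ℝ)⁻¹)) * (x : ℝ) ≤ ε / 3 * x :=
    mul_le_mul_of_nonneg_right hF2.le (Nat.cast_nonneg _)
  have h4 : C ≤ |C| := le_abs_self C
  have h5 : 0 ≤ ε * x := by positivity
  convert (h1.trans (by linarith : K + ((∏ p ∈ F, (1 - (p : ℝ)⁻¹)) * (x : ℝ) + C) ≤ ε * x)) using 1

end Pool.Agent.H17D
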