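import Mathlib
import Pool.Agent.N70.PP.Main
import Pool.Agent.H17D.Num

/-!
The second main theorem of the project PP for all `n = 6 r p (2 j + 1)`.
Adapted from `Pool/Agent/N70/PP/Main.lean`.
-/

set_option autoImplicit false
set_option linter.unusedSectionVars false
set_option linter.unusedSimpArgs false

namespace Pool.Agent.H17D

open Polynomial Pool.Agent.H391R2 Pool.Agent.H391R2.T4 Pool.Agent.Y793 Pool.Agent.Y140.AW
open Pool.Agent.N70.EP (SgnIndex)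
open Pool.Agent.N70.PP

section main

variable (p : ℕ) [Fact p.Prime] (hp2 : p ≠ 2) (hh : Pieces)
    {K L Z : Type} [Field K] [CharP K p] [Infinite K] [Field L] [Algebra K L]
    [FiniteDimensional K L] [IsGalois K L] [Field Z] [Algebra (RatFunc K) Z] [Algebra L Z]
    [Algebra K Z] [IsScalarTower K (RatFunc K) Z] [IsScalarTower K L Z]
    [FiniteDimensional (RatFunc K) Z] [IsGalois (RatFunc K) Z]
    (π : (Z ≃ₐ[RatFunc K] Z) →* (L ≃ₐ[K] L))
    (hπ : ∀ (σ : Z ≃ₐ[RatFunc K] Z) (x : L), σ (algebraMap L Z x) = algebraMap L Z (π σ x))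
    (hreg : ∀ y : Z, IsAlgebraic L y → y ∈ Set.range (algebraMap L Z))
    (P : Subgroup (Z ≃ₐ[RatFunc K] Z)) {B : Type} [Group B] [Finite B] (β : P →* B)
    (hβ : Function.Surjective β) (a : B →* (L ≃ₐ[K] L)) (hsurj : Function.Surjective a)
    (ha : ∀ p : P, a (β p) = π p) (hperf : commutator a.ker = ⊤)

include hp2 hh hπ hreg hβ hsurj ha hperf


theorem oneB' (d : ℕ) (hd2 : d % 4 = 2) (χ : (L ≃ₐ[K] L) →* ℤˣ)
    (hidx : SgnIndex (Z ≃ₐ[RatFunc K] Z) P d (χ.comp π)) :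
    ∃ n₀ : ℕ, ∀ n ≥ n₀, DegD (d * p) n → RegSol K L (AltTw a χ n) (twProj a χ n) := by
  classical
  obtain ⟨θ, Θ, D₀, hθ, hΘ, hDD⟩ := hh.data K Z P
  rw [index_of_sgnIndex hidx] at hDD
  obtain ⟨ρ, δ, hρ0, hδ, hρ⟩ := exists_rho K L χ
  obtain ⟨R, hR⟩ := hh.lcB K L Z π hπ P d χ hd2 hidx ρ δ hρ0 hδ hρ θ Θ D₀ hθ hΘ hDD
  have hp0 : 0 < p := (Fact.out : p.Prime).pos
  have hpo : Odd p := (Fact.out : p.Prime).odd_of_ne_two hp2
  have hd0 := hDD.pos
  obtain ⟨c, hc⟩ : ∃ c, c = d * p := ⟨_, rfl⟩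
  have hc0 : 0 < c := by rw [hc]; positivity
  obtain ⟨L', hL⟩ := exists_L Θ
  obtain ⟨C₀, hC₀⟩ : ∃ C₀, C₀ = 4 * D₀.natDegree + L' + 3 := ⟨_, rfl⟩
  obtain ⟨n₁, hn₁⟩ := exists_q' c C₀ hc0
  refine ⟨n₁ + 2 * (Nat.card a.ker) ^ 2 + 3, fun n hn0 hn => ?_⟩
  rw [← hc] at hn
  obtain ⟨q, r, hq, hnq, hr5, hrq, hrC⟩ := hn₁ n (by omega)
  obtain ⟨j, hj⟩ := (degD_iff hc0).1 hn
  have hjT : r + C₀ ≤ 2 * j + 1 := by
    rw [hj] at hrC
    exact Nat.le_of_mul_le_mul_left hrC hc0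
  obtain ⟨Bd, hB⟩ : ∃ Bd, Bd = 2 * j + 1 - 4 * D₀.natDegree := ⟨_, rfl⟩
  have hBδ : Bd + (D₀ ^ 4).natDegree = 2 * j + 1 := by
    rw [natDegree_pow, hB]
    omega
  have hnd : d * (p * (Bd + (D₀ ^ 4).natDegree)) = n := by
    rw [hBδ, hj, hc]
    ring
  have hn2 : d * (p * (Bd + (D₀ ^ 4).natDegree)) % 4 = 2 := by
    rw [hBδ]
    obtain ⟨p', hp'⟩ := hpo
    obtain ⟨d', hd'⟩ : ∃ d', d = 4 * d' + 2 := ⟨d / 4, by omega⟩
    rw [hp', hd']
    have h1 : (4 * d' + 2) * ((2 * p' + 1) * (2 * j + 1)) =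
        4 * (d' * ((2 * p' + 1) * (2 * j + 1)) + (2 * p' * j + p' + j)) + 2 := by ring
    rw [h1]
    omega
  have hBB : BB Θ Bd (r + 1) := ⟨by omega, by omega, fun k => by have := hL k; omega⟩
  have hBo : Odd Bd := by
    rw [hB]
    exact ⟨j - 2 * D₀.natDegree, by omega⟩
  let K₀ := AlgebraicClosure K
  let jL : L →ₐ[K] K₀ := IsAlgClosed.lift
  let iL : Algebra L K₀ := jL.toRingHom.toAlgebra
  have tKL : IsScalarTower K L K₀ := .of_algebraMap_eq fun x => (jL.commutes x).symm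
  obtain ⟨N, i1, i2, i3, η, hη⟩ := exists_trb K₀ (Option (Fin (r + 1)))
  let i4 : Algebra K N := ((algebraMap K₀ N).comp (algebraMap K K₀)).toAlgebra
  let i4L : Algebra L N := ((algebraMap K₀ N).comp (algebraMap L K₀)).toAlgebra
  have i5 : IsScalarTower K K₀ N := .of_algebraMap_eq fun _ => rfl
  have i5L : IsScalarTower L K₀ N := .of_algebraMap_eq fun _ => rfl
  have i6 : IsScalarTower K L N := .of_algebraMap_eq fun x => by
    rw [IsScalarTower.algebraMap_apply K K₀ N, IsScalarTower.algebraMap_apply K L K₀,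
      ← IsScalarTower.algebraMap_apply L K₀ N]
  obtain ⟨s, hs⟩ : ∃ s : N, s = η none := ⟨_, rfl⟩
  obtain ⟨ν, hν⟩ : ∃ ν : Fin (r + 1) → N, ν = fun i => η (some i) := ⟨_, rfl⟩
  have hη' : (fun o : Option (Fin (r + 1)) => o.elim s ν) = η := by
    funext o
    cases o with
    | none => exact hs
    | some i => rw [hν]; rfl
  rw [← hη'] at hη
  have hs0 : s ≠ 0 := hη.1.ne_zero none
  obtain ⟨x, θx, hx, hpt, hall, hder⟩ := hh.pts p K N Θ D₀ (D₀ ^ 4) d Bd (r + 1) hDD hBB rfl ν s hs0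
  rw [← hnd]
  refine coreP (K₀ := K₀) (N := N) p hh.mt hh.tup hh.ind hh.lift hh.ari π hπ hreg P θ Θ hθ hΘ D₀ d hDD β hβ a
      hsurj ha hperf Bd r q _ hq (hnd.trans hnq) (by omega) (by omega)
      (lt_of_lt_of_le (by omega) (Nat.self_le_factorial _)) s ν hη x θx hx hpt hall χ ?_
  intro σ h τ hσs hσν hσL hperm hτ _
  refine sgnB hp2 hh.int hh.plB hh.uni hh.parB hDD hBB hBo hn2 hη x θx hx hpt hder hperm
    (algebraMap L N ρ) δ ?_ ?_ R hR (χ h) σ τ hσs ?_ hτ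
  · exact (map_ne_zero_iff _ (algebraMap L N).injective).2 hρ0
  · rw [← map_pow, ← hδ, ← IsScalarTower.algebraMap_apply]
  · rw [hσL, hρ, zsmul_eq_mul, zsmul_eq_mul, map_mul, map_intCast]

end main

theorem mainB' (hh : Pieces) (p : ℕ) [Fact p.Prime] (hp2 : p ≠ 2) (K L : Type) [Field K]
    [CharP K p] [Infinite K] [Field L] [Algebra K L] [FiniteDimensional K L] [IsGalois K L]
    (B : Type) [Group B] [Finite B] (a : B →* (L ≃ₐ[K] L)) (ha : Function.Surjective a)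
    (hperf : commutator a.ker = ⊤) (hw : WeakSol K L B a) (r : ℕ) (hr : Odd r)
    (hr2 : ((72 * Nat.card a.ker + 2).factorial) ^ 3 ≤ r) :
    ∃ n₀ : ℕ, ∀ n ≥ n₀, DegD (6 * r * p) n → ∀ χ : (L ≃ₐ[K] L) →* ℤˣ,
      RegSol K L (AltTw a χ n) (twProj a χ n) := by
  have h1 : ∀ χ : (L ≃ₐ[K] L) →* ℤˣ, ∃ n₀ : ℕ, ∀ n ≥ n₀, DegD (6 * r * p) n →
      RegSol K L (AltTw a χ n) (twProj a χ n) := by
    intro χ
    have hker : Nat.card (a.comp (MonoidHom.fst B (Equiv.Perm (Fin 4)))).ker =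
        24 * Nat.card a.ker := by
      have e : (a.comp (MonoidHom.fst B (Equiv.Perm (Fin 4)))).ker ≃
          Equiv.Perm (Fin 4) × a.ker :=
        { toFun := fun x => (x.1.2, ⟨x.1.1, x.2⟩)
          invFun := fun y => ⟨(y.2.1, y.1), y.2.2⟩
          left_inv := fun x => rfl
          right_inv := fun y => rfl }
      rw [Nat.card_congr e, Nat.card_prod, Nat.card_eq_fintype_card (α := Equiv.Perm (Fin 4)),
        Fintype.card_perm, Fintype.card_fin]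
      rfl
    have hws : WeakSol K L (B × Equiv.Perm (Fin 4))
        (a.comp (MonoidHom.fst B (Equiv.Perm (Fin 4)))) := by
      obtain ⟨L', i1, i2, i3, i4, i5, i6, s, hs⟩ := hw
      exact ⟨L', i1, i2, i3, i4, i5, i6, (MonoidHom.inl B (Equiv.Perm (Fin 4))).comp s, hs⟩
    obtain ⟨Z, i1, i2, i3, i4, i5, i6, i7, i8, γ, hγ, hreg⟩ :=
      Pool.Agent.TH59.WX.reg_sym_unif K L (B × Equiv.Perm (Fin 4))
        (a.comp (MonoidHom.fst B (Equiv.Perm (Fin 4)))) hws r (by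
          rw [hker]
          have h2 : 3 * (24 * Nat.card a.ker) + 2 = 72 * Nat.card a.ker + 2 := by ring
          rwa [h2])
    obtain ⟨P, β, hβ, hβ2, hidx⟩ := Pool.Agent.N342.EP.t_grp1 (L ≃ₐ[K] L) B a ha χ r hr
    let P' := P.comap (γ : (Z ≃ₐ[RatFunc K] Z) →* _)
    have hmap : P'.map (γ : (Z ≃ₐ[RatFunc K] Z) →* _) = P :=
      Subgroup.map_comap_eq_self_of_surjective γ.surjective P
    let e : P' ≃* P := (γ.subgroupMap P').trans (MulEquiv.subgroupCongr hmap)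
    have hidx' := sgnIndex_comap γ P (6 * r) _ hidx
    exact oneB' p hp2 hh ((symProj (a.comp (MonoidHom.fst B (Equiv.Perm (Fin 4)))) r).comp
      (γ : (Z ≃ₐ[RatFunc K] Z) →* _)) hγ hreg P' (β.comp (e : P' →* P)) (hβ.comp e.surjective) a ha
      (fun u => hβ2 (e u)) hperf (6 * r) (by obtain ⟨r', hr'⟩ := hr; omega) χ hidx'
  choose f hf using h1
  have hfin : Finite ((L ≃ₐ[K] L) →* ℤˣ) :=
    Finite.of_injective (fun f : (L ≃ₐ[K] L) →* ℤˣ => (f : (L ≃ₐ[K] L) → ℤˣ))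
      DFunLike.coe_injective
  have hft := Fintype.ofFinite ((L ≃ₐ[K] L) →* ℤˣ)
  refine ⟨Finset.univ.sup f, fun n hn hd χ => hf χ n ?_ hd⟩
  exact (Finset.le_sup (f := f) (Finset.mem_univ χ)).trans hn

end Pool.Agent.H17D
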