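import Mathlib
import Pool.Agent.N70.PP.VocKB
import Pool.Agent.N70.PP.VocB
import Pool.Agent.H17D.Main

/-!
Uniformity in the fields, kernels and fibre powers, for all `n = 6 r p (2 j + 1)`.
Adapted from the files `Un.lean`, `Ka.lean`, `Fp.lean`, `VocB.lean`, `VocKB.lean` of
`Pool/Agent/N70/PP`.
-/

set_option autoImplicit false
set_option linter.unusedSectionVars false
set_option linter.unusedSimpArgs false

namespace Pool.Agent.H17D

open Polynomial Pool.Agent.H391R2 Pool.Agent.H391R2.T4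
open Nfff32c05
open Pool.Agent.Y793 (AWr AltTw twProj regSol_iso)
open Pool.Agent.TH444.TW (RS RSK RegularOver regSol_of_regularOver)
open Pool.Agent.N70.EP (twTrans ker_symm_comp pB FB exists_sec exists_kerEquiv exists_pull)
open Pool.Agent.N600.UK (Out cls cls_eq_one conj_inj CL cl_of_center cl_iso)
open Pool.Agent.TH377.IG (SpecProp FP prFP spec_hilb spec_ratFunc)
open Pool.Agent.N600.ZQ (ReducesP RealizedP SameP reducesP_of FratCover exists_frat)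
open Pool.Agent.N70.EP.Voc
open Pool.Agent.N70.PP Pool.Agent.N70.PP.Voc

/-- The split case, uniformly in the fields. -/
theorem mainBu' (hh : Pieces2) (p : ℕ) [Fact p.Prime] (hp2 : p ≠ 2) (H B : Type) [Group H]
    [Finite H] [Group B] [Finite B] (a : B →* H) (s : H →* B) (hs : ∀ h, a (s h) = h)
    (hperf : commutator a.ker = ⊤) (r : ℕ) (hr : Odd r)
    (hr2 : ((72 * Nat.card a.ker + 2).factorial) ^ 3 ≤ r) :
    ∃ n₀ : ℕ, ∀ n ≥ n₀, DegD (6 * r * p) n → ∀ χ : H →* ℤˣ, RSK (ZMod p) (twProj a χ n) := by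
  obtain ⟨K₀, L₀, i1, i2, i3, i4, i5, i6, i7, e₀, h⟩ := transferP hh p H
  have hk := ker_symm_comp e₀ a
  have ha : Function.Surjective a := fun h => ⟨s h, hs h⟩
  obtain ⟨n₀, hn₀⟩ := mainB' hh.toPieces p hp2 K₀ L₀ B ((e₀.symm : H →* (L₀ ≃ₐ[K₀] L₀)).comp a)
    (e₀.symm.surjective.comp ha) (by rw [hk]; exact hperf)
    (weak_of_split K₀ L₀ B _ (s.comp (e₀ : (L₀ ≃ₐ[K₀] L₀) →* H)) (fun ρ => by
      change e₀.symm (a (s (e₀ ρ))) = ρ
      rw [hs, e₀.symm_apply_apply])) r hr (by rw [hk]; exact hr2)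
  exact ⟨n₀, fun n hn hd χ => rsk_twP p a χ _ e₀ h (hn₀ n hn hd _)⟩

theorem rsk_kerA' (G : Type) [Group G] [Finite G] (hh : Pieces2) (p : ℕ) [Fact p.Prime]
    (hp2 : p ≠ 2) (hZ : ∀ z : G, (∀ g : G, z * g = g * z) → z = 1) (hperf : commutator G = ⊤)
    (r : ℕ) (hr : Odd r) (hr2 : ((72 * Nat.card G + 2).factorial) ^ 3 ≤ r) :
    ∃ n₀ : ℕ, ∀ n ≥ n₀, DegD (6 * r * p) n → ∀ (Γ : Type) [Group Γ] [Finite Γ]
      (a : Γ →* MulAut G) (χ : Γ →* ℤˣ), RSK (ZMod p) (twProj (pB ((cls G).comp a)) χ n) := by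
  have hfin : Finite (MulAut G) := Finite.of_injective (fun a : MulAut G => (a : G → G))
    DFunLike.coe_injective
  have h1 : ∀ W : Subgroup (MulAut G × ℤˣ), ∃ n₀ : ℕ, ∀ n ≥ n₀, DegD (6 * r * p) n →
      RSK (ZMod p) (twProj (pB ((cls G).comp ((MonoidHom.fst (MulAut G) ℤˣ).comp W.subtype)))
        ((MonoidHom.snd (MulAut G) ℤˣ).comp W.subtype) n) := by
    intro W
    obtain ⟨s, hs⟩ := sec_of_lift ((MonoidHom.fst (MulAut G) ℤˣ).comp W.subtype)
    obtain ⟨e⟩ := exists_kerEquiv ((cls G).comp ((MonoidHom.fst (MulAut G) ℤˣ).comp W.subtype)) hZ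
    have hfW : Finite W := inferInstance
    obtain ⟨n₀, hn₀⟩ := mainBu' hh p hp2 W _
      (pB ((cls G).comp ((MonoidHom.fst (MulAut G) ℤˣ).comp W.subtype))) s hs
      (Y793.perf_congr e hperf) r hr (by
        rw [← Nat.card_congr e.toEquiv]
        exact hr2)
    exact ⟨n₀, fun n hn hd => hn₀ n hn hd _⟩
  choose κ hκ using h1
  have hfS : Finite (Subgroup (MulAut G × ℤˣ)) := inferInstance
  obtain ⟨k₀, hk₀⟩ : ∃ k₀, ∀ W, κ W ≤ k₀ := by
    obtain ⟨k₀, hk₀⟩ := (Set.finite_range κ).bddAbove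
    exact ⟨k₀, fun W => hk₀ ⟨W, rfl⟩⟩
  refine ⟨k₀, fun n hn hd Γ _ _ a χ => ?_⟩
  let W : Subgroup (MulAut G × ℤˣ) := (a.prod χ).range
  let ρ : Γ →* W := (a.prod χ).rangeRestrict
  have h2 := hκ W n ((hk₀ W).trans hn) hd
  have hW : Finite (Wr (FB ((cls G).comp ((MonoidHom.fst (MulAut G) ℤˣ).comp W.subtype))) n) :=
    finite_wr _ _
  have h3 := Pool.Agent.N75.EP.t_pul (ZMod p) W _ Γ
        (twProj (pB ((cls G).comp ((MonoidHom.fst (MulAut G) ℤˣ).comp W.subtype)))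
        ((MonoidHom.snd (MulAut G) ℤˣ).comp W.subtype) n) ρ
        (MonoidHom.rangeRestrict_surjective _) h2
  obtain ⟨e, he⟩ := exists_pull ((cls G).comp ((MonoidHom.fst (MulAut G) ℤˣ).comp W.subtype)) ρ
    ((MonoidHom.snd (MulAut G) ℤˣ).comp W.subtype) n
  exact RSK.congr h3 e he

theorem fibP_main' (hh : Pieces2) (p : ℕ) [Fact p.Prime] (hp2 : p ≠ 2) (B W : Type) [Group B] [Finite B] [Group W]
    [Finite W] (α : B →* W) (hperf : commutator α.ker = ⊤) (r : ℕ) (hr : Odd r)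
    (hr2 : ((72 * Nat.card α.ker + 2).factorial) ^ 3 ≤ r) :
    ∃ n₀ : ℕ, ∀ n ≥ n₀, DegD (6 * r * p) n → FibP p α n := by
  have h1 : ∀ D : Subgroup B, ∃ n₀ : ℕ, ∀ n ≥ n₀, DegD (6 * r * p) n → ∀ χ : D →* ℤˣ,
      RSK (ZMod p) (twProj (prFP α (aD α D)) χ n) := by
    intro D
    obtain ⟨e⟩ := kerD α D
    have hfD : Finite D := inferInstance
    have hfF : Finite (FP α (aD α D)) := inferInstance
    refine mainBu' hh p hp2 D (FP α (aD α D)) (prFP α (aD α D))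
      { toFun := fun d => ⟨((d : B), d), rfl⟩
        map_one' := rfl
        map_mul' := fun _ _ => rfl } (fun d => rfl) (Y793.perf_congr e hperf) r hr ?_
    rw [← Nat.card_congr e.toEquiv]
    exact hr2
  choose κ hκ using h1
  have hfS : Finite (Subgroup B) := inferInstance
  obtain ⟨k₀, hk₀⟩ : ∃ k₀, ∀ D, κ D ≤ k₀ := by
    obtain ⟨k₀, hk₀⟩ := (Set.finite_range κ).bddAbove
    exact ⟨k₀, fun D => hk₀ ⟨D, rfl⟩⟩
  exact ⟨k₀, fun n hn hd χ D _ => hκ D n ((hk₀ D).trans hn) hd _⟩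

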