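import Mathlib
import Pool.Agent.N70.PP.VocK

/-!
# Vocabulary: almost all degrees in odd characteristic

`Pool.Agent.N70.EP.Voc`, `Pool.Agent.N70.EP.VocC`, `Pool.Agent.N70.PP.Voc`, `Pool.Agent.N70.PP.VocK`
have the definitions `Wreath`, `AltWreath`, `TwPow`, `twPr`, `RegularSolution`, `ProperSolution`,
`WeakSolutionOver`, `Occurs`, `OccursRegularly`, `Hilbertian`, `OccursIf`, `OccursIff`, `OccursAll`,
`Solvable`, `SolvableAll`, `Centreless`, `InnerAut`, `GeneralTheorem`, `KernelTheorem`.
-/

set_option autoImplicit false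

namespace Pool.Agent.H17D.Voc

open Pool.Agent.N70.EP.Voc Pool.Agent.N70.PP.Voc

open scoped Classical in
/-- `A` holds for almost all `n ≡ c` modulo `2 c` (that is, for almost all odd multiples `n` of `c`):
the number of the `n < x` with `n ≡ c` modulo `2 c` which do not have the property `A` is `o(x)`. -/
def AlmostAllOddMultiples (c : ℕ) (A : ℕ → Prop) : Prop :=
  ∀ ε : ℝ, 0 < ε → ∃ N : ℕ, ∀ x ≥ N,
    (((Finset.range x).filter fun n => n % (2 * c) = c ∧ ¬ A n).card : ℝ) ≤ ε * x

/-- `A` holds for all large odd multiples `n` of `6 r p` if `r` is odd and `r ≥ R`. -/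
def LargeOddMultiples (p R : ℕ) (A : ℕ → Prop) : Prop :=
  ∀ r : ℕ, Odd r → R ≤ r → ∃ n₀ : ℕ, ∀ n ≥ n₀, n % (12 * r * p) = 6 * r * p → A n

/-- If an embedding problem with `α : B → W = Gal(L/K)`, `K` a field of characteristic `p`, has a
weak solution, then the one with `π : E → W = Gal(L/K)` is solvable. -/
def SolvableIfWeak (p : ℕ) {B E W : Type} [Group B] [Group E] [Group W] (α : B →* W)
    (π : E →* W) : Prop :=
  ∀ (K L : Type) [Field K] [CharP K p] [Field L] [Algebra K L] [FiniteDimensional K L]
    [IsGalois K L] (ε : (L ≃ₐ[K] L) ≃* W), WeakSolutionOver (ε.symm.toMonoidHom.comp α) K →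
    Solvable (ε.symm.toMonoidHom.comp π)

/-- The theorem on the fibre power `TwPow α χ n`: it occurs over the fields over which a subgroup `D`
of `B` with `α(D) = W` does; the embedding problems with the projection to `W` are solvable if those
with `α` are weakly solvable; if `α` splits, `TwPow α χ n` and `W` occur over the same fields and all
embedding problems with the projection to `W` are solvable. -/
def FibreTheorem (p : ℕ) {B W : Type} [Group B] [Group W] (α : B →* W) (n : ℕ) (χ : W →* ℤˣ) :
    Prop :=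
  (∀ D : Subgroup B, (∀ w : W, ∃ d ∈ D, α d = w) → OccursIf p (TwPow α χ n) D) ∧
    SolvableIfWeak p α (twPr α χ n) ∧
    ((∃ s : W →* B, ∀ w, α (s w) = w) →
      OccursIff p (TwPow α χ n) W ∧ SolvableAll p (twPr α χ n))

end Pool.Agent.H17D.Voc
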