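import Mathlib
import Pool.Agent.H17D.Un
import Pool.Agent.H17D.Voc

/-!
The final theorems of the project H17D.
-/

set_option autoImplicit false
set_option linter.unusedSectionVars false
set_option linter.unusedSimpArgs false

namespace Pool.Agent.H17D

open Polynomial Pool.Agent.H391R2 Pool.Agent.H391R2.T4
open Nfff32c05
open Pool.Agent.Y793 (AWr AltTw twProj regSol_iso)
open Pool.Agent.TH444.TW (RS RSK RegularOver regSol_of_regularOver)
open Pool.Agent.N600.UK (Out cls cls_eq_one conj_inj CL cl_of_center cl_iso)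
open Pool.Agent.N600.ZQ (ReducesP RealizedP SameP reducesP_of FratCover exists_frat)
open Pool.Agent.N70.EP.Voc
open Pool.Agent.N70.PP Pool.Agent.N70.PP.Voc Pool.Agent.H17D.Voc

theorem degD_of {r p n : ℕ} (h : n % (12 * r * p) = 6 * r * p) : DegD (6 * r * p) n := by
  unfold DegD
  have : 2 * (6 * r * p) = 12 * r * p := by ring
  rw [this]
  exact h

open scoped Classical in
theorem dens_final (p : ℕ) (hp : 0 < p) (R : ℕ) (A : ℕ → Prop) (h : LargeOddMultiples p R A) :
    AlmostAllOddMultiples (6 * p) A := by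
  have hd0 : AlmostAllIn (6 * p) A := by
    refine dens (6 * p) R (by omega) A fun r hr hR => ?_
    obtain ⟨n₀, hn₀⟩ := h r hr hR
    refine ⟨n₀, fun n hn hd => hn₀ n hn ?_⟩
    unfold DegD at hd
    have h1 : 2 * (r * (6 * p)) = 12 * r * p := by ring
    have h2 : r * (6 * p) = 6 * r * p := by ring
    rw [h1, h2] at hd
    exact hd
  intro ε hε
  obtain ⟨N, hN⟩ := hd0 ε hε
  refine ⟨N, fun x hx => ?_⟩
  have h3 := hN x hx
  refine le_trans (le_of_eq ?_) h3
  congr 2
  ext n
  rw [Finset.mem_filter, Finset.mem_filter]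
  rfl

section main

variable {p : ℕ} [Fact p.Prime] (hp2 : p ≠ 2)

section fib

variable {B W : Type} [Group B] [Finite B] [Group W]
  [Finite W] (α : B →* W) (hα : Function.Surjective α) (hperf : commutator α.ker = ⊤)

include hp2 hα hperf

/-- The characters. -/
theorem fib_all' : LargeOddMultiples p (((72 * Nat.card α.ker + 2).factorial) ^ 3)
    (fun n => ∀ χ : W →* ℤˣ, FibreTheorem p α n χ) := by
  intro r hr hr2
  obtain ⟨n₀, hn₀⟩ := fibP_main' hyp p hp2 B W α hperf r hr hr2
  refine ⟨n₀ + 2, fun n hn hd χ => ?_⟩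
  have hdeg : DegD (6 * r * p) n := degD_of hd
  have hF : FibP p α n := hn₀ n (by omega) hdeg
  have hf : Finite (Wr B n) := finite_wr B n
  have hf2 : Finite (TwPow α χ n) := Finite.of_injective Subtype.val Subtype.val_injective
  have hf3 : Finite (AltTw α χ n) := inferInstance
  have hredE : ReducesP p (AltTw α χ n) (TwPow α χ n) :=
    reducesP_quot (twE α χ n).symm.toMonoidHom (twE α χ n).symm.surjective
  have h1 : ∀ D : Subgroup B, (∀ w : W, ∃ d ∈ D, α d = w) → ReducesP p D (TwPow α χ n) := by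
    intro D hD
    have h2 := hF.red χ D (fun w => by
      obtain ⟨d, hd, hw⟩ := hD w
      exact ⟨⟨d, hd⟩, hw⟩)
    exact ⟨fun κ _ _ _ h => hredE.1 κ (h2.1 κ h), fun K _ _ hK h => hredE.2.1 K hK (h2.2.1 K hK h),
      fun K _ _ h => hredE.2.2 K (h2.2.2 K h)⟩
  have h2 : ∀ (K L : Type) [Field K] [CharP K p] [Field L] [Algebra K L] [FiniteDimensional K L]
        [IsGalois K L] (ε : (L ≃ₐ[K] L) ≃* W),
        WeakSol K L B (ε.symm.toMonoidHom.comp α) →
        Solvable (ε.symm.toMonoidHom.comp (twPr α χ n)) := by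
    intro K L _ _ _ _ _ _ ε hw
    have h3 := hF.weak χ K L ε hw
    exact solvable_of_regSol (regSol_iso K L _ _ _ _ (twE α χ n).symm (fun z => rfl) h3)
  refine ⟨fun D hD => occursIf_of (h1 D hD), fun K L _ _ _ _ _ _ ε hw =>
    h2 K L ε (weak_of_over _ hw), ?_⟩
  rintro ⟨s, hs⟩
  constructor
  · apply occursIff_of
    refine sameP_of (reducesP_quot (twPr α χ n) (twPr_surj' α χ n hα (by omega))) ?_
    have h3 : ReducesP p W s.range := reducesP_quot s.rangeRestrict
      (MonoidHom.rangeRestrict_surjective s)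
    have h4 := h1 s.range (fun w => ⟨s w, ⟨w, rfl⟩, hs w⟩)
    exact ⟨fun κ _ _ _ h => h4.1 κ (h3.1 κ h), fun K _ _ hK h => h4.2.1 K hK (h3.2.1 K hK h),
      fun K _ _ h => h4.2.2 K (h3.2.2 K h)⟩
  · intro K L _ _ _ _ _ _ ε
    refine h2 K L ε ?_
    refine weak_of_split K L B _ (s.comp (ε : (L ≃ₐ[K] L) →* W)) (fun ρ => ?_)
    change ε.symm (α (s (ε ρ))) = ρ
    rw [hs, ε.symm_apply_apply]

end fib

section ker

variable (G : Type) [Group G] (hG : Centreless G) (hP : commutator G = ⊤)

include hp2 hG hP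

theorem goodP' : LargeOddMultiples p (((72 * Nat.card G + 2).factorial) ^ 3)
    (fun n => GoodP p G n) := by
  intro r hr hr2
  have h2 := hG.finite
  obtain ⟨k₀, hk₀⟩ := rsk_kerA' G hyp p hp2 (cl_of_center hG.center) hP r hr hr2
  exact ⟨k₀ + 2 * (Nat.card G + 4), fun n hn hd => ⟨by omega, hk₀ n (by omega) (degD_of hd)⟩⟩

theorem general' : LargeOddMultiples p (((72 * Nat.card G + 2).factorial) ^ 3)
    (fun n => GeneralTheorem p G (AltWreath G n)) := by
  intro r hr hr2
  obtain ⟨n₀, hn₀⟩ := goodP' hp2 G hG hP r hr hr2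
  exact ⟨n₀, fun n hn hd => generalTheorem_of G hG n (hn₀ n hn hd)⟩

theorem goodKer' (hC : ∃ C : Subgroup (MulAut G), IsCompl C (InnerAut G)) (n : ℕ)
    (hn : GoodP p G n) : KernelTheorem p (AltWreath G n) := by
  have h2 := hG.finite
  have h3 := hG.nontrivial
  have h4 : Finite (Wr G n) := finite_wr G n
  refine kernelTheorem_of (Finite.of_injective Subtype.val Subtype.val_injective) ?_
  intro K L X _ _ _ _ _ _ _ _ α hα hι
  have hf4 : Finite (AltWreath G n) := Finite.of_injective Subtype.val Subtype.val_injective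
  have hfX : Finite X := Pool.Agent.TH59.WX.finite_of_kernel α hι.some.symm
  have h5 := GoodP.compl (cl_of_center hG.center) hC hn α hα hι
  exact reg_all h5 K L (MulEquiv.refl _)

end ker

end main

end Pool.Agent.H17D
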