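import Mathlib
import Pool.Agent.H17D.Fin
import Pool.Agent.H43W.Alt

/-!
# `G ≀ A_n` over `F_p(X)`, `p` odd, for almost all odd multiples `n` of `6 p`

Let `p` be an odd prime. No realization of the groups `G`, `ker α` below is assumed. For a bound `R`
(an explicit function of the order of `G` or `ker α`) the properties below hold for all large odd
multiples `n` of `6 r p`, `r ≥ R` any odd number (`LargeOddMultiples`), and therefore for almost all
odd multiples `n` of `6 p` (`AlmostAllOddMultiples`: the number of exceptions below `x` is `o(x)`).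

1. `G` any finite perfect group: `G ≀ A_n` occurs over `k(X)` for all fields `k` of characteristic
   `p` (for example over `F_p(X)`), over all Hilbertian fields of characteristic `p`, and regularly
   over all fields of characteristic `p`.
2. `α : B → W` any surjection of finite groups with perfect kernel, and all `χ : W → ± 1` at the same
   time: the fibre power `TwPow α χ n`, an extension of `W` by `(ker α) ≀ A_n`: it occurs where a
   subgroup `D` of `B` with `α(D) = W` does, its embedding problems are solvable if those of `α` are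
   weakly solvable; if `α` splits, it occurs over the same fields as `W`.
3. `G` nontrivial, finite, perfect, with trivial centre: all groups `X` with a normal subgroup
   `N ≃ G ≀ A_n` of finite index, with no condition on the extension (`GeneralTheorem`: reduction of
   `X` to nilpotent Frattini covers, of order prime to `p`, of the quotient of `X / N` by any normal
   `p`-subgroup; full equivalence if no prime other than `p` divides both `|X / N|` and `|G|`). If
   `Inn G` is complemented in `Aut G`, `X` occurs if and only if `X / N` does, and all embedding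
   problems with kernel `G ≀ A_n` over fields of characteristic `p` are solvable (`KernelTheorem`).
-/

set_option autoImplicit false

namespace Pool.Agent.H17D.AlternatingDensityOld

open Pool.Agent.N70.EP.Voc Pool.Agent.N70.PP.Voc Pool.Agent.H17D.Voc

theorem result (p : ℕ) [Fact p.Prime] (hp : p ≠ 2) :
    (∀ (G : Type) [Group G] [Finite G], commutator G = ⊤ →
      LargeOddMultiples p (((72 * Nat.card G + 2).factorial) ^ 3)
        (fun n => OccursAll p (AltWreath G n)) ∧
      AlmostAllOddMultiples (6 * p) fun n => OccursAll p (AltWreath G n)) ∧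
    (∀ (B W : Type) [Group B] [Finite B] [Group W] [Finite W] (α : B →* W),
      Function.Surjective α → commutator α.ker = ⊤ →
      LargeOddMultiples p (((72 * Nat.card α.ker + 2).factorial) ^ 3)
        (fun n => ∀ χ : W →* ℤˣ, FibreTheorem p α n χ) ∧
      AlmostAllOddMultiples (6 * p) fun n => ∀ χ : W →* ℤˣ, FibreTheorem p α n χ) ∧
    ∀ (G : Type) [Group G], Centreless G → commutator G = ⊤ →
      (LargeOddMultiples p (((72 * Nat.card G + 2).factorial) ^ 3)
        (fun n => GeneralTheorem p G (AltWreath G n)) ∧
      AlmostAllOddMultiples (6 * p) fun n => GeneralTheorem p G (AltWreath G n)) ∧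
      ((∃ C : Subgroup (MulAut G), IsCompl C (InnerAut G)) →
        LargeOddMultiples p (((72 * Nat.card G + 2).factorial) ^ 3)
          (fun n => KernelTheorem p (AltWreath G n)) ∧
        AlmostAllOddMultiples (6 * p) fun n => KernelTheorem p (AltWreath G n)) := by
  have hp0 : 0 < p := (Fact.out : p.Prime).pos
  have hmono : ∀ (R : ℕ) (A B : ℕ → Prop), (∀ n, A n → B n) → LargeOddMultiples p R A →
      LargeOddMultiples p R B := fun R A B h hA r hr hR => by
    obtain ⟨n₀, hn₀⟩ := hA r hr hR
    exact ⟨n₀, fun n hn hd => h n (hn₀ n hn hd)⟩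
  refine ⟨fun G _ _ hG => ?_, fun B W _ _ _ _ α hα hperf => ?_, fun G _ hG hP => ?_⟩
  · have h1 := Pool.Agent.H17D.fib_all' hp (1 : G →* Unit) (fun _ => ⟨1, rfl⟩)
      (Pool.Agent.H43W.commutator_ker_one hG)
    have hc : Nat.card (1 : G →* Unit).ker = Nat.card G :=
      Nat.card_congr ⟨fun g => g.1, fun g => ⟨g, rfl⟩, fun _ => rfl, fun _ => rfl⟩
    rw [hc] at h1
    have h2 : LargeOddMultiples p (((72 * Nat.card G + 2).factorial) ^ 3)
        (fun n => OccursAll p (AltWreath G n)) := by
      refine hmono _ _ _ (fun n hn => ?_) h1
      have h3 := ((hn 1).2.2 ⟨1, fun _ => rfl⟩).1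
      have h4 : OccursAll p Unit := Pool.Agent.H43W.occursAll_one p Unit
      exact Pool.Agent.H43W.occursAll_congr ⟨fun k _ _ => (h3.1 k).2 (h4.1 k),
        fun K _ _ hK => (h3.2.1 K hK).2 (h4.2.1 K hK), fun K _ _ => (h3.2.2 K).2 (h4.2.2 K)⟩
        (Pool.Agent.H43W.twUnit G n)
    exact ⟨h2, Pool.Agent.H17D.dens_final p hp0 _ _ h2⟩
  · have h1 := Pool.Agent.H17D.fib_all' hp α hα hperf
    exact ⟨h1, Pool.Agent.H17D.dens_final p hp0 _ _ h1⟩
  · have h1 := Pool.Agent.H17D.general' hp G hG hP
    refine ⟨⟨h1, Pool.Agent.H17D.dens_final p hp0 _ _ h1⟩, fun hC => ?_⟩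
    have h2 : LargeOddMultiples p (((72 * Nat.card G + 2).factorial) ^ 3)
        (fun n => KernelTheorem p (AltWreath G n)) :=
      hmono _ _ _ (fun n hn => Pool.Agent.H17D.goodKer' hp G hG hP hC n hn)
        (Pool.Agent.H17D.goodP' hp G hG hP)
    exact ⟨h2, Pool.Agent.H17D.dens_final p hp0 _ _ h2⟩

end Pool.Agent.H17D.AlternatingDensityOld
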